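import Mathlib
import Pool.Agent.Lib.MP_695920_nt.SparseC

set_option autoImplicit false

open NumberField Module

namespace Pool.Agent.Results.MP_695920_nt.SparseResolvent

open Pool.Agent.Lib.MP_695920_nt

/-- The number of ideal classes killed by `l`. -/
noncomputable def tors (M : Type) [Field M] (l : ℕ) : ℕ :=
  Nat.card {x : ClassGroup (𝓞 M) // x ^ l = 1}

/-- The absolute discriminant. -/
noncomputable def absDisc (M : Type) [Field M] [NumberField M] : ℝ := |(discr M : ℝ)|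

theorem result (n l a : ℕ) (hl : 0 < l) (ha : 0 < a) :
    ∃ (E : Set ℤ) (A k : ℕ),
      (∀ X : ℕ, 1 ≤ X → ((E ∩ {d | d.natAbs ≤ X}).ncard : ℝ) ≤ A * (1 + Real.log X) ^ k) ∧
      ∀ ε : ℝ, 0 < ε → ∃ C : ℝ, ∀ (M : Type) [Field M] [NumberField M], finrank ℚ M = n →
        ∀ L : IntermediateField ℚ M, L ≠ ⊥ →
        (∀ F : IntermediateField ℚ L, F ≠ ⊥ → absDisc L ≤ absDisc F ^ a) →
        ∀ d f : ℤ, Squarefree d → discr L = d * f ^ 2 → (Even (finrank ℚ L) ∨ d ≠ 1) →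
        (d ∉ E ∨ |(d : ℝ)| ≤ absDisc L ^ (1 / (2 * (a * l * n ^ 2 : ℝ)))) →
        (tors M l : ℝ) ≤ C * absDisc M ^ ((1 : ℝ) / 2 + ε) *
          absDisc L ^ (-(1 / (8 * (a * l * n ^ 2 : ℝ) ^ 2))) := by
  rcases Nat.eq_zero_or_pos n with rfl | hn
  · refine ⟨∅, 0, 0, ?_, ?_⟩
    · intro X _
      simp
    · intro ε _
      refine ⟨0, ?_⟩
      intro M _ _ hM
      exact absurd hM (finrank_pos (R := ℚ) (M := M)).ne'
  have hw : 1 ≤ 4 * a * l * n ^ 2 := Nat.succ_le_of_lt (by positivity)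
  obtain ⟨j0, hj0, C0, hC0⟩ := exc_count (4 * a * l * n ^ 2) hw
  refine ⟨Exc (4 * a * l * n ^ 2) j0, ⌈C0⌉₊, 10 * (4 * a * l * n ^ 2) + 1, ?_, ?_⟩
  · intro X hX
    refine (hC0 X hX).trans ?_
    apply mul_le_mul_of_nonneg_right (Nat.le_ceil C0)
    have : (0 : ℝ) ≤ Real.log X := Real.log_nonneg (by exact_mod_cast hX)
    positivity
  intro ε hε
  obtain ⟨C, hC⟩ := sparse_bound a n l ha hl j0 hj0 ε hε
  refine ⟨C, ?_⟩
  intro M _ _ hMn L hL hFL d f hds hdf hcase hdE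
  have hL1 : 1 < finrank ℚ L := by
    have h0 : 0 < finrank ℚ L := finrank_pos
    rcases Nat.lt_or_ge 1 (finrank ℚ L) with h | h
    · exact h
    · exfalso
      apply hL
      have h1 : finrank ℚ L = 1 := by omega
      exact IntermediateField.finrank_eq_one_iff.mp h1
  have hD0 : (0 : ℝ) < |(discr M : ℝ)| := abs_pos.mpr (by exact_mod_cast discr_ne_zero M)
  have hL0 : (0 : ℝ) < |(discr L : ℝ)| := abs_pos.mpr (by exact_mod_cast discr_ne_zero L)
  have hdd : (0 : ℝ) < |(d : ℝ)| := abs_pos.mpr (by exact_mod_cast hds.ne_zero)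
  have h1 := hC L M hMn hL1 hFL d f hds (hdE.imp_right (fun h => by
    have h2 := Real.log_le_log hdd h
    unfold absDisc at h2
    rw [Real.log_rpow hL0] at h2
    calc _ ≤ _ := h2
      _ = _ := by ring)) hdf hcase
  unfold tors absDisc
  rw [Real.rpow_add hD0, ← Real.sqrt_eq_rpow]
  have h3 : |(discr L : ℝ)| ^ (-(1 / (8 * (a * l * n ^ 2 : ℝ) ^ 2))) =
      Real.exp (-(Real.log |(discr L : ℝ)| / (8 * (a * l * n ^ 2) ^ 2))) := by
    rw [Real.rpow_def_of_pos hL0]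
    congr 1
    ring
  rw [h3]
  exact h1

end Pool.Agent.Results.MP_695920_nt.SparseResolvent
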