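import Mathlib
import Pool.Agent.Lib.MP_695920_nt.TT.MainFun

set_option autoImplicit false

open NumberField Module

namespace Pool.Agent.Results.MP_695920_nt.TwoTorsionOdd

theorem result : ∃ Δ : ℕ → ℝ,
    (∀ n : ℕ, Odd n → 7 ≤ n → Δ n < 1 / 2 - 1 / (2 * n) ∧ ∃ C : ℝ,
      ∀ (K : Type) [Field K] [NumberField K], finrank ℚ K = n →
        (Nat.card {x : ClassGroup (𝓞 K) // x ^ 2 = 1} : ℝ) ≤ C * |(discr K : ℝ)| ^ Δ n) ∧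
    ∀ δ : ℝ, 0 < δ → ∃ n₀ : ℕ, ∀ n : ℕ, n₀ ≤ n → Odd n →
      Δ n ≤ (1 : ℝ) / 2 - (1 - δ) / n :=
  Pool.TT.main_fun

end Pool.Agent.Results.MP_695920_nt.TwoTorsionOdd
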